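import Pool.Agent.H95.FG.Defs

open MvPolynomial

namespace H95.FG

/-- elimination for one prime factor with unit leading coefficient -/
theorem elim_prime {R : Type*} [CommRing R] [IsDomain R] (q P : Polynomial R) (hq : Prime q)
    (hu : IsUnit q.leadingCoeff) (hP : ¬ q ∣ P) :
    ∃ c : R, c ≠ 0 ∧ ∃ V W : Polynomial R, Polynomial.C c = V * q + W * P := by
  classical
  obtain ⟨u, hu'⟩ := hu
  -- the monic version
  set q' : Polynomial R := Polynomial.C (↑u⁻¹ : R) * q with hq'
  have hmon : q'.Monic := by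
    rw [Polynomial.Monic, hq', Polynomial.leadingCoeff_mul, Polynomial.leadingCoeff_C, ← hu']
    simp
  have hCu : IsUnit (Polynomial.C (↑u⁻¹ : R)) := by
    rw [Polynomial.isUnit_C]; exact Units.isUnit _
  have hassoc : Associated q q' := by
    obtain ⟨w, hw⟩ := hCu
    refine ⟨w, ?_⟩
    rw [hq', ← hw, mul_comm]
  have hq'p : Prime q' := hassoc.prime hq
  have hP' : ¬ q' ∣ P := fun h => hP (hassoc.dvd.trans h)
  have : Module.Finite R (AdjoinRoot q') := hmon.finite_adjoinRoot
  have : Algebra.IsIntegral R (AdjoinRoot q') := Algebra.IsIntegral.of_finite R _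
  have : (Ideal.span {q'}).IsPrime := (Ideal.span_singleton_prime hq'p.ne_zero).2 hq'p
  have : IsDomain (AdjoinRoot q') := by
    show IsDomain (Polynomial R ⧸ Ideal.span {q'})
    infer_instance
  have hx0 : AdjoinRoot.mk q' P ≠ 0 := by
    rw [Ne, AdjoinRoot.mk_eq_zero]; exact hP'
  have hne := Ideal.comap_ne_bot_of_integral_mem (R := R) (I := Ideal.span {AdjoinRoot.mk q' P})
    hx0 (Ideal.mem_span_singleton_self _) (Algebra.IsIntegral.isIntegral _)
  obtain ⟨c, hc, hc0⟩ := (Submodule.ne_bot_iff _).1 hne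
  refine ⟨c, hc0, ?_⟩
  rw [Ideal.mem_comap, Ideal.mem_span_singleton] at hc
  obtain ⟨w, hw⟩ := hc
  obtain ⟨W, rfl⟩ := AdjoinRoot.mk_surjective w
  have h1 : AdjoinRoot.mk q' (Polynomial.C c - P * W) = 0 := by
    rw [map_sub, map_mul, ← hw, AdjoinRoot.mk_C]
    simp [AdjoinRoot.algebraMap_eq]
  rw [AdjoinRoot.mk_eq_zero] at h1
  obtain ⟨V, hV⟩ := h1
  refine ⟨V * Polynomial.C (↑u⁻¹ : R), W, ?_⟩
  have : Polynomial.C c = q' * V + P * W := by rw [← hV]; ring
  rw [this, hq']; ring

/-- elimination for a family of polynomials -/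
theorem elim_family {N : ℕ} {ι : Type*} (P : ι → Polynomial (MvPolynomial (Fin N) ℂ))
    (f : Polynomial (MvPolynomial (Fin N) ℂ)) :
    IsUnit f.leadingCoeff → (∀ q, Prime q → q ∣ f → ∃ j, ¬ q ∣ P j) →
    ∃ c : MvPolynomial (Fin N) ℂ, c ≠ 0 ∧ ∀ x : Fin N → ℂ, eval x c ≠ 0 → ∀ t : ℂ,
      Polynomial.eval t (Polynomial.map (eval x) f) = 0 →
      ∃ j, Polynomial.eval t (Polynomial.map (eval x) (P j)) ≠ 0 := by
  classical
  refine UniqueFactorizationMonoid.induction_on_prime f ?_ ?_ ?_
  · intro h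
    simp at h
  · intro u hu _ _
    refine ⟨1, one_ne_zero, fun x _ t ht => ?_⟩
    exfalso
    have : IsUnit (Polynomial.eval t (Polynomial.map (eval x) u)) := by
      have h1 : IsUnit (Polynomial.map (eval x) u) :=
        hu.map (Polynomial.mapRingHom (eval x))
      exact h1.map (Polynomial.evalRingHom t)
    rw [ht] at this
    exact not_isUnit_zero this
  · intro a q ha hq ih hu hdiv
    rw [Polynomial.leadingCoeff_mul, IsUnit.mul_iff] at hu
    obtain ⟨c1, hc1, h1⟩ := ih hu.2 (fun r hr hra => hdiv r hr (hra.mul_left _))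
    obtain ⟨j, hj⟩ := hdiv q hq (dvd_mul_right _ _)
    obtain ⟨c2, hc2, V, W, hVW⟩ := elim_prime q (P j) hq hu.1 hj
    refine ⟨c1 * c2, mul_ne_zero hc1 hc2, fun x hx t ht => ?_⟩
    rw [map_mul] at hx
    have hx1 := left_ne_zero_of_mul hx
    have hx2 := right_ne_zero_of_mul hx
    rw [Polynomial.map_mul, Polynomial.eval_mul, mul_eq_zero] at ht
    rcases ht with ht | ht
    · refine ⟨j, fun h0 => hx2 ?_⟩
      have := congrArg (fun r => Polynomial.eval t (Polynomial.map (eval x) r)) hVW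
      simp only [Polynomial.map_add, Polynomial.map_mul, Polynomial.eval_add, Polynomial.eval_mul,
        ht, h0, Polynomial.map_C, Polynomial.eval_C, mul_zero, add_zero] at this
      exact this
    · exact h1 x hx1 t ht

/-- the linear substitution with first column `v` -/
noncomputable def sg {N : ℕ} (v : Fin (N + 1) → ℂ) (k : Fin (N + 1)) :
    MvPolynomial (Fin (N + 1)) ℂ :=
  Fin.cases (C (v 0) * X 0) (fun k => X k.succ + C (v k.succ) * X 0) k

/-- the inverse substitution -/
noncomputable def sgi {N : ℕ} (v : Fin (N + 1) → ℂ) (k : Fin (N + 1)) :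
    MvPolynomial (Fin (N + 1)) ℂ :=
  Fin.cases (C (v 0)⁻¹ * X 0) (fun k => X k.succ - C (v k.succ * (v 0)⁻¹) * X 0) k

theorem sg_sgi {N : ℕ} (v : Fin (N + 1) → ℂ) (h : v 0 ≠ 0) (f : MvPolynomial (Fin (N + 1)) ℂ) :
    aeval (sg v) (aeval (sgi v) f) = f := by
  have : (aeval (sg v)).comp (aeval (sgi v)) = AlgHom.id ℂ (MvPolynomial (Fin (N + 1)) ℂ) := by
    apply MvPolynomial.algHom_ext
    intro i
    refine Fin.cases ?_ (fun k => ?_) i
    · simp only [sgi, AlgHom.comp_apply, aeval_X, Fin.cases_zero, map_mul, sg, algHom_C,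
        AlgHom.id_apply, MvPolynomial.algebraMap_eq]
      rw [← mul_assoc, ← C_mul, inv_mul_cancel₀ h, C_1, one_mul]
    · simp only [sgi, AlgHom.comp_apply, aeval_X, Fin.cases_zero, Fin.cases_succ, map_mul, map_sub,
        sg, algHom_C, AlgHom.id_apply, MvPolynomial.algebraMap_eq]
      have h1 : (C (v 0)⁻¹ : MvPolynomial (Fin (N + 1)) ℂ) * C (v 0) = 1 := by
        rw [← C_mul, inv_mul_cancel₀ h, C_1]
      linear_combination (-(C (v k.succ)) * X 0) * h1
  exact congrArg (fun g : MvPolynomial (Fin (N + 1)) ℂ →ₐ[ℂ] MvPolynomial (Fin (N + 1)) ℂ => g f)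
    this

theorem sgi_sg {N : ℕ} (v : Fin (N + 1) → ℂ) (h : v 0 ≠ 0) (f : MvPolynomial (Fin (N + 1)) ℂ) :
    aeval (sgi v) (aeval (sg v) f) = f := by
  have : (aeval (sgi v)).comp (aeval (sg v)) = AlgHom.id ℂ (MvPolynomial (Fin (N + 1)) ℂ) := by
    apply MvPolynomial.algHom_ext
    intro i
    refine Fin.cases ?_ (fun k => ?_) i
    · simp only [sgi, AlgHom.comp_apply, aeval_X, Fin.cases_zero, map_mul, sg, algHom_C,
        AlgHom.id_apply, MvPolynomial.algebraMap_eq]
      rw [← mul_assoc, ← C_mul, mul_inv_cancel₀ h, C_1, one_mul]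
    · simp only [sgi, AlgHom.comp_apply, aeval_X, Fin.cases_zero, Fin.cases_succ, map_mul, map_add,
        sg, algHom_C, AlgHom.id_apply, MvPolynomial.algebraMap_eq]
      rw [← mul_assoc, C_mul.symm]
      ring
  exact congrArg (fun g : MvPolynomial (Fin (N + 1)) ℂ →ₐ[ℂ] MvPolynomial (Fin (N + 1)) ℂ => g f)
    this

/-- the linear map `L` -/
noncomputable def LL {N : ℕ} (v : Fin (N + 1) → ℂ) (y : Fin (N + 1) → ℂ) : Fin (N + 1) → ℂ :=
  fun k => eval y (sg v k)

theorem eval_sg {N : ℕ} (v y : Fin (N + 1) → ℂ) (f : MvPolynomial (Fin (N + 1)) ℂ) :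
    eval y (aeval (sg v) f) = eval (LL v y) f := by
  have := MvPolynomial.comp_aeval (R := ℂ) (sg v) (aeval y : MvPolynomial (Fin (N + 1)) ℂ →ₐ[ℂ] ℂ)
  have h2 := congrArg (fun g : MvPolynomial (Fin (N + 1)) ℂ →ₐ[ℂ] ℂ => g f) this
  simp only [AlgHom.comp_apply] at h2
  exact h2

theorem LL_zero {N : ℕ} (v y : Fin (N + 1) → ℂ) : LL v y 0 = v 0 * y 0 := by
  simp [LL, sg]

theorem LL_succ {N : ℕ} (v y : Fin (N + 1) → ℂ) (k : Fin N) :
    LL v y k.succ = y k.succ + v k.succ * y 0 := by
  simp [LL, sg]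

theorem LL_add {N : ℕ} (v y y' : Fin (N + 1) → ℂ) : LL v (y + y') = LL v y + LL v y' := by
  funext k
  refine Fin.cases ?_ (fun k => ?_) k
  · simp [LL_zero, mul_add]
  · simp [LL_succ]; ring

theorem LL_smul {N : ℕ} (v y : Fin (N + 1) → ℂ) (c : ℂ) : LL v (c • y) = c • LL v y := by
  funext k
  refine Fin.cases ?_ (fun k => ?_) k
  · simp [LL_zero]; ring
  · simp [LL_succ]; ring

theorem LL_e {N : ℕ} (v : Fin (N + 1) → ℂ) : LL v (Fin.cons 1 0) = v := by
  funext k
  refine Fin.cases ?_ (fun k => ?_) k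
  · simp [LL_zero]
  · simp [LL_succ]

theorem eval_smul_hom {n d : ℕ} {f : MvPolynomial (Fin n) ℂ} (hf : f.IsHomogeneous d) (c : ℂ)
    (z : Fin n → ℂ) : eval (c • z) f = c ^ d * eval z f := by
  rw [eval_eq, eval_eq, Finset.mul_sum]
  refine Finset.sum_congr rfl fun u hu => ?_
  have hd : u.degree = d := by
    have := hf (mem_support_iff.1 hu)
    rw [Finsupp.degree_eq_weight_one]; exact this
  have h1 : ∏ i ∈ u.support, (c • z) i ^ u i = c ^ d * ∏ i ∈ u.support, z i ^ u i := by
    simp only [Pi.smul_apply, smul_eq_mul, mul_pow, Finset.prod_mul_distrib]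
    rw [Finset.prod_pow_eq_pow_sum, ← hd]
    rfl
  rw [h1]; ring

theorem zfp_succ {N m d : ℕ} (p : Fin m → MvPolynomial (Fin (N + 1)) ℂ) (hN : 1 ≤ N)
    (hp : Hom p d)
    (hg : ∀ φ : MvPolynomial (Fin (N + 1)) ℂ, (∀ j, φ ∣ p j) → IsUnit φ) :
    ∃ a b, ZF p a b := by
  classical
  -- a nonzero member
  obtain ⟨j0, hj0⟩ : ∃ j, p j ≠ 0 := by
    by_contra hcon
    push Not at hcon
    exact not_isUnit_zero (hg 0 (fun j => by rw [hcon j]))
  set f := p j0 with hf
  have hfX : f * X 0 ≠ 0 := mul_ne_zero hj0 (X_ne_zero 0)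
  obtain ⟨v, hv⟩ : ∃ v : Fin (N + 1) → ℂ, eval v (f * X 0) ≠ 0 := by
    by_contra hcon
    push Not at hcon
    exact hfX (MvPolynomial.funext (fun x => by rw [hcon x, map_zero]))
  rw [map_mul, eval_X] at hv
  have hfv : eval v f ≠ 0 := left_ne_zero_of_mul hv
  have hv0 : v 0 ≠ 0 := right_ne_zero_of_mul hv
  -- the polynomials in `t`
  set P : Fin m → Polynomial (MvPolynomial (Fin N) ℂ) :=
    fun j => finSuccEquiv ℂ N (aeval (sg v) (p j)) with hP
  have hPev : ∀ (x : Fin N → ℂ) (t : ℂ) (j : Fin m),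
      Polynomial.eval t (Polynomial.map (eval x) (P j)) = eval (LL v (Fin.cons t x)) (p j) := by
    intro x t j
    rw [hP, ← eval_eq_eval_mv_eval', eval_sg]
  have hhom : (aeval (sg v) f).IsHomogeneous d := by
    have h1 : ∀ i, (sg v i).IsHomogeneous 1 := by
      intro i
      refine Fin.cases ?_ (fun k => ?_) i
      · show (C (v 0) * X 0 : MvPolynomial (Fin (N + 1)) ℂ).IsHomogeneous 1
        simpa using (isHomogeneous_C _ (v 0)).mul (isHomogeneous_X ℂ (0 : Fin (N + 1)))
      · show (X k.succ + C (v k.succ) * X 0 : MvPolynomial (Fin (N + 1)) ℂ).IsHomogeneous 1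
        refine (isHomogeneous_X ℂ _).add ?_
        simpa using (isHomogeneous_C _ (v k.succ)).mul (isHomogeneous_X ℂ (0 : Fin (N + 1)))
    have := (hp j0).aeval (sg v) h1
    simpa using this
  have hcoef : (P j0).coeff d = C (eval v f) := by
    have h0 : ((P j0).coeff d).IsHomogeneous 0 :=
      hhom.finSuccEquiv_coeff_isHomogeneous d 0 (by simp)
    have h1 : (P j0).coeff d = C (coeff 0 ((P j0).coeff d)) := by
      have := (totalDegree_eq_zero_iff_eq_C (p := (P j0).coeff d)).1
        (by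
          have := h0.totalDegree_le
          omega)
      exact this
    -- evaluate at `x = 0`, `t = 1`
    have h2 : Polynomial.map (eval (0 : Fin N → ℂ)) (P j0) =
        Polynomial.C (eval (0 : Fin N → ℂ) ((P j0).coeff d)) * Polynomial.X ^ d := by
      ext i
      rw [Polynomial.coeff_map, Polynomial.coeff_C_mul_X_pow]
      split_ifs with hi
      · rw [hi]
      · by_cases hle : i ≤ d
        · have hc : ((P j0).coeff i).IsHomogeneous (d - i) :=
            hhom.finSuccEquiv_coeff_isHomogeneous i (d - i) (by omega)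
          have := eval_smul_hom hc 0 (0 : Fin N → ℂ)
          rw [smul_zero, zero_pow (by omega), zero_mul] at this
          exact this
        · have : (P j0).coeff i = 0 := by
            apply Polynomial.coeff_eq_zero_of_natDegree_lt
            have h3 : (P j0).natDegree ≤ d := by
              rw [hP]
              simp only
              rw [natDegree_finSuccEquiv]
              exact (degreeOf_le_totalDegree _ _).trans hhom.totalDegree_le
            omega
          rw [this, map_zero]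
    have h3 := hPev 0 1 j0
    rw [h2] at h3
    have h4 : (Fin.cons (1 : ℂ) (0 : Fin N → ℂ) : Fin (N + 1) → ℂ) = Fin.cons 1 0 := rfl
    rw [LL_e] at h3
    simp only [Polynomial.eval_mul, Polynomial.eval_C, Polynomial.eval_pow, Polynomial.eval_X,
      one_pow, mul_one] at h3
    rw [h1, eval_C] at h3
    rw [h1, h3]
  have hnat : (P j0).natDegree = d := by
    apply le_antisymm
    · rw [hP]
      simp only
      rw [natDegree_finSuccEquiv]
      exact (degreeOf_le_totalDegree _ _).trans hhom.totalDegree_le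
    · apply Polynomial.le_natDegree_of_ne_zero
      rw [hcoef]
      simpa using hfv
  have hlc : IsUnit (P j0).leadingCoeff := by
    rw [Polynomial.leadingCoeff, hnat, hcoef]
    exact (IsUnit.mk0 _ hfv).map C
  obtain ⟨c, hc, hcx⟩ := elim_family P (P j0) hlc (by
    intro q hq _
    by_contra hcon
    push Not at hcon
    -- then a preimage of `q` divides all `p j`
    set ψ : MvPolynomial (Fin (N + 1)) ℂ := aeval (sgi v) ((finSuccEquiv ℂ N).symm q) with hψ
    have h1 : ∀ j, ψ ∣ p j := by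
      intro j
      have h2 : (finSuccEquiv ℂ N).symm q ∣ aeval (sg v) (p j) := by
        have := map_dvd (finSuccEquiv ℂ N).symm (hcon j)
        simpa [hP] using this
      have h3 := map_dvd (aeval (sgi v) : MvPolynomial (Fin (N + 1)) ℂ →ₐ[ℂ]
        MvPolynomial (Fin (N + 1)) ℂ) h2
      rwa [sgi_sg v hv0] at h3
    have h4 := hg ψ h1
    have h5 := h4.map (aeval (sg v) : MvPolynomial (Fin (N + 1)) ℂ →ₐ[ℂ]
        MvPolynomial (Fin (N + 1)) ℂ)
    rw [hψ, sg_sgi v hv0] at h5
    have h6 := h5.map (finSuccEquiv ℂ N)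
    rw [AlgEquiv.apply_symm_apply] at h6
    exact hq.not_isUnit h6)
  have i0 : Fin N := ⟨0, hN⟩
  obtain ⟨x, hx⟩ : ∃ x : Fin N → ℂ, eval x c ≠ 0 := by
    by_contra hcon
    push Not at hcon
    exact hc (MvPolynomial.funext (fun x => by rw [hcon x, map_zero]))
  refine ⟨LL v (Fin.cons 0 x), v, ?_⟩
  intro s t hst h0
  have hcomb : ∀ s t : ℂ, s • LL v (Fin.cons 0 x) + t • v = LL v (Fin.cons t (s • x)) := by
    intro s t
    have : (Fin.cons t (s • x) : Fin (N + 1) → ℂ) =
        s • (Fin.cons 0 x : Fin (N + 1) → ℂ) + t • (Fin.cons 1 0 : Fin (N + 1) → ℂ) := by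
      funext k
      refine Fin.cases ?_ (fun k => ?_) k
      · simp
      · simp
    rw [this, LL_add, LL_smul, LL_smul, LL_e]
  by_cases hs : s = 0
  · have ht : t ≠ 0 := by
      rcases hst with h | h
      · exact absurd hs h
      · exact h
    have := congrFun h0 j0
    simp only [ev, hs, zero_smul, zero_add, Pi.zero_apply] at this
    rw [eval_smul_hom (hp j0)] at this
    exact (mul_ne_zero (pow_ne_zero d ht) hfv) this
  · have key : ∀ j, eval (LL v (Fin.cons (t / s) x)) (p j) = 0 := by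
      intro j
      have h1 := congrFun h0 j
      have h2 : s • LL v (Fin.cons 0 x) + t • v = s • LL v (Fin.cons (t / s) x) := by
        rw [hcomb, ← LL_smul]
        congr 1
        funext k
        refine Fin.cases ?_ (fun k => ?_) k
        · simp only [Fin.cons_zero, Pi.smul_apply, smul_eq_mul]
          field_simp
        · simp
      simp only [ev, Pi.zero_apply] at h1
      rw [h2, eval_smul_hom (hp j)] at h1
      exact (mul_eq_zero.1 h1).resolve_left (pow_ne_zero d hs)
    obtain ⟨j, hj⟩ := hcx x hx (t / s) (by rw [hPev]; exact key j0)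
    exact hj (by rw [hPev]; exact key j)

theorem t_ZFP : S_ZFP := by
  intro n m d p hn _ hp hg
  obtain ⟨N, rfl⟩ : ∃ N, n = N + 1 := ⟨n - 1, by omega⟩
  exact zfp_succ p (by omega) hp hg

end H95.FG
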