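import Pool.Agent.H95.FG.Fin
import Pool.Agent.H95.FG.Zfp
import Pool.Agent.H12.FG.Col
import Pool.Agent.H12.FG.Star
import Pool.Agent.H12.FG.Top
import Pool.Agent.H12.FG.Quad
import Pool.Agent.H15.FG.Case1
import Pool.Agent.H15.FG.NV
import Pool.Agent.H54.FG.Pair
import Pool.Agent.H74.FG.Small
import Pool.Agent.H78.FG.Min
import Pool.Agent.H78.FG.Nine
import Pool.Agent.H81.FG.Main
import Pool.Agent.H81.FG.Open
import Pool.Agent.H81.FG.Uni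
import Pool.Agent.H87.FG.CASE2
import Pool.Agent.H91.FG.Div
import Pool.Agent.H91.FG.Nulls
import Pool.Agent.H96.FG.BLK
import Pool.Agent.H96.FG.R

namespace H95.FG

theorem all_R1 : S_R1 := H96.FG.t_R1 H96.FG.t_BLK H81.FG.t_UNI
theorem all_R2 : S_R2 := H96.FG.t_R2 H96.FG.t_BLK H81.FG.t_UNI
theorem all_MIN : S_MIN := H78.FG.t_MIN all_R1 H12.FG.t_TOP H91.FG.t_DIV
theorem all_COL : S_COL := H12.FG.t_COL H54.FG.t_PAIR
theorem all_NV : S_NV := H15.FG.t_NV H81.FG.t_OPEN H91.FG.t_NUL Pool.Agent.H74.FG.sq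
theorem all_CASE1 : S_CASE1 := H15.FG.t_CASE1 H81.FG.t_OPEN H91.FG.t_HOMA all_COL H12.FG.t_STAR
theorem all_CASE2 : S_CASE2 := H87.FG.t_CASE2 H91.FG.t_HOMA all_COL H12.FG.t_STAR
theorem all_MAIN : S_MAIN := H81.FG.t_MAIN all_R2 t_ZFP H81.FG.t_OPEN H81.FG.t_ZFLI H91.FG.t_HOMA
  all_NV all_CASE1 all_CASE2

theorem all_GAP : S_GAP := gap_of Pool.Agent.H74.FG.pol all_MIN all_MAIN Pool.Agent.H74.FG.d1
  (H12.FG.t_D2 H91.FG.t_HOMA)

end H95.FG
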