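import Mathlib

/-!
# Interface of crew FG (MP_ce7760_an): the first gap of `S_1(n)` for `n ≥ 4`

Polarised conventions: `z, Y : Fin n → ℂ`, `Y` plays the role of `conj w`.
`z ⬝ᵥ Y = ∑ k, z k * Y k`.
-/

open MvPolynomial

namespace H95.FG

/-- `SosRanks d n` is the set `S_d(n)` of all `m` such that there are `m` linearly independent
holomorphic polynomials `p 0, ..., p (m-1)` on `ℂ^n` with
`∑ j, |p j (z)|^2 = ‖z‖^(2d) * A (z, conj z)` for a polynomial `A` in `z` and `conj z`. -/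
def SosRanks (d n : ℕ) : Set ℕ :=
  {m | ∃ p : Fin m → MvPolynomial (Fin n) ℂ, LinearIndependent ℂ p ∧
    ∃ A : MvPolynomial (Fin n ⊕ Fin n) ℂ, ∀ z : Fin n → ℂ,
      ((∑ j, ‖eval z (p j)‖ ^ 2 : ℝ) : ℂ) =
        ((∑ k, ‖z k‖ ^ 2 : ℝ) : ℂ) ^ d *
          eval (Sum.elim z (fun k => (starRingEnd ℂ) (z k))) A}

/-- the polynomial with conjugate coefficients -/
noncomputable def cj {n : ℕ} (f : MvPolynomial (Fin n) ℂ) : MvPolynomial (Fin n) ℂ :=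
  MvPolynomial.map (starRingEnd ℂ) f

/-- complex conjugation of vectors -/
noncomputable def cv {n : ℕ} (z : Fin n → ℂ) : Fin n → ℂ := fun k => (starRingEnd ℂ) (z k)

/-- `p` is a system of `m` linearly independent polynomials in `n` variables whose
polarised kernel is divisible by `∑ z_k Y_k`, with quotient `A`. -/
def Sys (n m : ℕ) (p : Fin m → MvPolynomial (Fin n) ℂ)
    (A : MvPolynomial (Fin n ⊕ Fin n) ℂ) : Prop :=
  LinearIndependent ℂ p ∧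
  ∑ j, rename Sum.inl (p j) * rename Sum.inr (cj (p j)) =
    (∑ k : Fin n, X (Sum.inl k) * X (Sum.inr k)) * A

/-- the vector `p(z)` -/
noncomputable def ev {n m : ℕ} (p : Fin m → MvPolynomial (Fin n) ℂ) (z : Fin n → ℂ) :
    Fin m → ℂ := fun j => eval z (p j)

/-- the polarised kernel `K(z, Y)` -/
noncomputable def KK {n m : ℕ} (p : Fin m → MvPolynomial (Fin n) ℂ) (z Y : Fin n → ℂ) : ℂ :=
  ∑ j, eval z (p j) * eval Y (cj (p j))

/-- the value `A(z, Y)` -/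
noncomputable def AA {n : ℕ} (A : MvPolynomial (Fin n ⊕ Fin n) ℂ) (z Y : Fin n → ℂ) : ℂ :=
  eval (Sum.elim z Y) A

/-- directional derivative of `p` at `y` in the direction `v` -/
noncomputable def dp {n m : ℕ} (p : Fin m → MvPolynomial (Fin n) ℂ) (v y : Fin n → ℂ) :
    Fin m → ℂ := fun j => ∑ k, v k * eval y (pderiv k (p j))

/-- directional derivative of `A(·, Y)` at `z` in the direction `v` -/
noncomputable def dA {n : ℕ} (A : MvPolynomial (Fin n ⊕ Fin n) ℂ) (v z Y : Fin n → ℂ) : ℂ :=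
  ∑ k, v k * eval (Sum.elim z Y) (pderiv (Sum.inl k) A)

/-- all `p j` are homogeneous of degree `d` -/
def Hom {n m : ℕ} (p : Fin m → MvPolynomial (Fin n) ℂ) (d : ℕ) : Prop :=
  ∀ j, (p j).IsHomogeneous d

/-- on every line through the origin the vectors `p(z)` are parallel -/
def Line1 {n m : ℕ} (p : Fin m → MvPolynomial (Fin n) ℂ) : Prop :=
  ∀ (z : Fin n → ℂ) (s : ℂ) (i j : Fin m),
    eval (s • z) (p i) * eval z (p j) = eval (s • z) (p j) * eval z (p i)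

/-- `p` of a two-dimensional subspace spans at most three dimensions -/
def Plane3 {n m : ℕ} (p : Fin m → MvPolynomial (Fin n) ℂ) : Prop :=
  ∀ (a b : Fin n → ℂ) (s t : Fin 4 → ℂ),
    ¬ LinearIndependent ℂ (fun i => ev p (s i • a + t i • b))

/-- `p` has no zero on the plane `span(a, b)` outside the origin -/
def ZF {n m : ℕ} (p : Fin m → MvPolynomial (Fin n) ℂ) (a b : Fin n → ℂ) : Prop :=
  ∀ s t : ℂ, (s ≠ 0 ∨ t ≠ 0) → ev p (s • a + t • b) ≠ 0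

/-! ## Statements of the parts -/

/-- POL: polarisation (library `H402.CE` has `T3`). -/
def S_POL : Prop := ∀ n m : ℕ, m ∈ SosRanks 1 n → ∃ p A, Sys n m p A

/-- BLK: block lemma. `c g a` are coefficient vectors, orthogonal for different groups `g`. If
every group has a nonsingular block for some matrix `Z` and scalar `γ`, then the number of all
points is at most `m`. -/
def S_BLK : Prop := ∀ (n m : ℕ) (p : Fin m → MvPolynomial (Fin n) ℂ)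
  (A : MvPolynomial (Fin n ⊕ Fin n) ℂ), Sys n m p A →
  ∀ (r : ℕ) (N : Fin r → ℕ) (c : (g : Fin r) → Fin (N g) → (Fin n → ℂ)),
  (∀ g g', g ≠ g' → ∀ a b, ∑ k, c g a k * (starRingEnd ℂ) (c g' b k) = 0) →
  (∀ g, ∃ (Z : Matrix (Fin n) (Fin n) ℂ) (γ : ℂ),
    (Matrix.of (fun a b : Fin (N g) =>
      KK p (Z.mulVec (c g a)) (γ • (Z.adjugate.transpose.mulVec (cv (c g b)))))).det ≠ 0) →
  ∑ g, N g ≤ m

/-- UNI: an orthonormal family extends to a unitary matrix with prescribed columns. -/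
def S_UNI : Prop := ∀ (n r : ℕ) (e : Fin r → Fin n) (_ : Function.Injective e)
  (v : Fin r → EuclideanSpace ℂ (Fin n)), Orthonormal ℂ v →
  ∃ (Z : Matrix (Fin n) (Fin n) ℂ) (γ : ℂ), (∀ i k, Z k (e i) = v i k) ∧
    (∀ x : Fin n → ℂ, γ • (Z.adjugate.transpose.mulVec (cv x)) = cv (Z.mulVec x))

/-- R1 -/
def S_R1 : Prop := ∀ (n m : ℕ) (p : Fin m → MvPolynomial (Fin n) ℂ)
  (A : MvPolynomial (Fin n ⊕ Fin n) ℂ), Sys n m p A → m < 2 * n → Line1 p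

/-- R2 -/
def S_R2 : Prop := ∀ (n m : ℕ) (p : Fin m → MvPolynomial (Fin n) ℂ)
  (A : MvPolynomial (Fin n ⊕ Fin n) ℂ), Sys n m p A → 2 ≤ n → m + 2 ≤ 2 * n → Plane3 p

/-- TOP: the top degree part of a system with `Line1` is again a system. -/
def S_TOP : Prop := ∀ (n m : ℕ) (p : Fin m → MvPolynomial (Fin n) ℂ)
  (A : MvPolynomial (Fin n ⊕ Fin n) ℂ), 1 ≤ m → Sys n m p A → Line1 p →
  ∀ N, (∀ j, (p j).totalDegree ≤ N) → (∃ j, (p j).totalDegree = N) →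
  1 ≤ N ∧ ∃ p' A', Sys n m p' A' ∧ Hom p' N

/-- DIV: division by a common factor. -/
def S_DIV : Prop := ∀ (n m : ℕ) (h : Fin m → MvPolynomial (Fin n) ℂ) (φ : MvPolynomial (Fin n) ℂ)
  (A : MvPolynomial (Fin n ⊕ Fin n) ℂ), 2 ≤ n → φ ≠ 0 → Sys n m (fun j => φ * h j) A →
  ∃ B, Sys n m h B

/-- MIN: there is a homogeneous system without common factor. -/
def S_MIN : Prop := ∀ (n m : ℕ), 2 ≤ n → 1 ≤ m → m + 2 ≤ 2 * n → (∃ p A, Sys n m p A) →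
  ∃ p A d, Sys n m p A ∧ 1 ≤ d ∧ Hom p d ∧
    ∀ φ : MvPolynomial (Fin n) ℂ, (∀ j, φ ∣ p j) → IsUnit φ

/-- ZFP: a homogeneous system without common factor has a plane without zeros. -/
def S_ZFP : Prop := ∀ (n m d : ℕ) (p : Fin m → MvPolynomial (Fin n) ℂ), 2 ≤ n → 1 ≤ d →
  Hom p d → (∀ φ : MvPolynomial (Fin n) ℂ, (∀ j, φ ∣ p j) → IsUnit φ) → ∃ a b, ZF p a b

/-- OPEN: being free of zeros is an open condition. -/
def S_OPEN : Prop := ∀ (n m d : ℕ) (p : Fin m → MvPolynomial (Fin n) ℂ) (a b : Fin n → ℂ),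
  1 ≤ d → Hom p d → ZF p a b → ∃ ε > 0, ∀ a' b' : Fin n → ℂ, ‖a' - a‖ < ε → ‖b' - b‖ < ε →
    ZF p a' b'

/-- ZFLI: the two vectors of a zero free plane are linearly independent. -/
def S_ZFLI : Prop := ∀ (n m d : ℕ) (p : Fin m → MvPolynomial (Fin n) ℂ) (a b : Fin n → ℂ),
  1 ≤ d → Hom p d → ZF p a b → LinearIndependent ℂ ![a, b]

/-- HOMA: `A(·, Y)` is homogeneous of degree `d - 1`. -/
def S_HOMA : Prop := ∀ (n m d : ℕ) (p : Fin m → MvPolynomial (Fin n) ℂ)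
  (A : MvPolynomial (Fin n ⊕ Fin n) ℂ), 1 ≤ n → Sys n m p A → Hom p (d + 1) →
  ∀ (c : ℂ) (z Y : Fin n → ℂ), AA A (c • z) Y = c ^ d * AA A z Y ∧
    AA A z (c • Y) = c ^ d * AA A z Y

/-- NUL: Nullstellensatz for the quadric. -/
def S_NUL : Prop := ∀ (n : ℕ) (A : MvPolynomial (Fin n ⊕ Fin n) ℂ), 2 ≤ n →
  (∀ z Y : Fin n → ℂ, ∑ k, z k * Y k = 0 → AA A z Y = 0) →
  ∃ B, A = (∑ k : Fin n, X (Sum.inl k) * X (Sum.inr k)) * B

/-- SQ: if `A` is divisible by the quadric again then `m` is large (library `T2`, `d = 2`). -/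
def S_SQ : Prop := ∀ (n m : ℕ) (p : Fin m → MvPolynomial (Fin n) ℂ)
  (B : MvPolynomial (Fin n ⊕ Fin n) ℂ), 2 ≤ n → 1 ≤ m →
  Sys n m p ((∑ k : Fin n, X (Sum.inl k) * X (Sum.inr k)) * B) → n * (n + 1) ≤ 2 * m

/-- NV: a zero free plane and a `Y` orthogonal to it such that `A(·, Y)` does not vanish on it. -/
def S_NV : Prop := ∀ (n m d : ℕ) (p : Fin m → MvPolynomial (Fin n) ℂ)
  (A : MvPolynomial (Fin n ⊕ Fin n) ℂ) (a b : Fin n → ℂ), 3 ≤ n → 1 ≤ m → m + 2 ≤ 2 * n →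
  1 ≤ d → Sys n m p A → Hom p d → ZF p a b →
  ∃ a' b' Y : Fin n → ℂ, ZF p a' b' ∧ Y ≠ 0 ∧ ∑ k, a' k * Y k = 0 ∧ ∑ k, b' k * Y k = 0 ∧
    ∃ s t : ℂ, AA A (s • a' + t • b') Y ≠ 0

/-- PAIR: the functionals. For `U` put `g_U j = dp (cj p) U Y j`; then
`∑ j, p_j(z) g_U j = (z·U) A(z,Y) + (z·Y) (...)`; stated for `z·Y = 0`. -/
def S_PAIR : Prop := ∀ (n m : ℕ) (p : Fin m → MvPolynomial (Fin n) ℂ)
  (A : MvPolynomial (Fin n ⊕ Fin n) ℂ), Sys n m p A →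
  ∀ (z Y U v : Fin n → ℂ), ∑ k, z k * Y k = 0 → ∑ k, v k * Y k = 0 →
  ∑ j, ev p z j * dp (fun j => cj (p j)) U Y j = (∑ k, z k * U k) * AA A z Y ∧
  ∑ j, dp p v z j * dp (fun j => cj (p j)) U Y j =
    (∑ k, v k * U k) * AA A z Y + (∑ k, z k * U k) * dA A v z Y

/-- COL: collapse. In a plane `span(a, b)` orthogonal to `Y` on which `A(·, Y)` does not vanish
identically: two vectors of the span of `p(plane)` (given as limits: `ev` or `dp`) that are killed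
by all `g_U` are dependent. -/
def S_COL : Prop := ∀ (n m : ℕ) (p : Fin m → MvPolynomial (Fin n) ℂ)
  (A : MvPolynomial (Fin n ⊕ Fin n) ℂ), Sys n m p A → Plane3 p →
  ∀ (a b Y : Fin n → ℂ), LinearIndependent ℂ ![a, b] →
  ∑ k, a k * Y k = 0 → ∑ k, b k * Y k = 0 → (∃ s t : ℂ, AA A (s • a + t • b) Y ≠ 0) →
  (∀ s t s' t' : ℂ, AA A (s • a + t • b) Y = 0 → AA A (s' • a + t' • b) Y = 0 →
    ¬ LinearIndependent ℂ ![ev p (s • a + t • b), ev p (s' • a + t' • b)]) ∧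
  (∀ s t s' t' : ℂ, AA A (s • a + t • b) Y = 0 →
    dA A (s' • a + t' • b) (s • a + t • b) Y = 0 →
    ¬ LinearIndependent ℂ ![ev p (s • a + t • b), dp p (s' • a + t' • b) (s • a + t • b)])

/-- STAR: infinitely many pairwise non-parallel points with the same direction `p(z0)`. -/
def S_STAR : Prop := ∀ (n m : ℕ) (p : Fin m → MvPolynomial (Fin n) ℂ)
  (A : MvPolynomial (Fin n ⊕ Fin n) ℂ), Sys n m p A → ∀ (z0 : Fin n → ℂ)
  (f : ℂ → (Fin n → ℂ)) (S : Set ℂ), S.Infinite →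
  (∀ σ ∈ S, ∀ τ ∈ S, σ ≠ τ → LinearIndependent ℂ ![f σ, f τ]) →
  (∀ σ ∈ S, ∃ c : ℂ, c ≠ 0 ∧ ev p (f σ) = c • ev p z0) → ev p z0 = 0

/-- CASE1: two different zeros in a zero free plane. -/
def S_CASE1 : Prop := ∀ (n m d : ℕ) (p : Fin m → MvPolynomial (Fin n) ℂ)
  (A : MvPolynomial (Fin n ⊕ Fin n) ℂ), Sys n m p A → Hom p (d + 1) → Plane3 p →
  ∀ (z0 z1 u Y : Fin n → ℂ) (t0 : ℂ), LinearIndependent ℂ ![z0, z1, u] →
  ∑ k, z0 k * Y k = 0 → ∑ k, z1 k * Y k = 0 → ∑ k, u k * Y k = 0 → ZF p z0 z1 →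
  AA A z0 Y = 0 → AA A (t0 • z0 + z1) Y = 0 → (∃ s t : ℂ, AA A (s • z0 + t • z1) Y ≠ 0) → False

/-- CASE2: only one zero on all planes near a zero free plane, degree at least three. -/
def S_CASE2 : Prop := ∀ (n m d : ℕ) (p : Fin m → MvPolynomial (Fin n) ℂ)
  (A : MvPolynomial (Fin n ⊕ Fin n) ℂ), Sys n m p A → Hom p (d + 1) → 2 ≤ d → Plane3 p →
  ∀ (z1 z2 u Y : Fin n → ℂ) (ε : ℝ), 0 < ε → LinearIndependent ℂ ![z1, z2, u] →
  ∑ k, z1 k * Y k = 0 → ∑ k, z2 k * Y k = 0 → ∑ k, u k * Y k = 0 → AA A z1 Y ≠ 0 →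
  (∀ τ : ℂ, ‖τ‖ < ε → ZF p z1 (z2 + τ • u)) →
  (∀ τ : ℂ, ‖τ‖ < ε → ∀ s s' : ℂ, AA A (s • z1 + z2 + τ • u) Y = 0 →
    AA A (s' • z1 + z2 + τ • u) Y = 0 → s = s') → False

/-- MAIN: degree at least three is impossible. -/
def S_MAIN : Prop := ∀ (n m d : ℕ) (p : Fin m → MvPolynomial (Fin n) ℂ)
  (A : MvPolynomial (Fin n ⊕ Fin n) ℂ), 4 ≤ n → 1 ≤ m → m + 2 ≤ 2 * n → Sys n m p A →
  Hom p (d + 1) → 2 ≤ d →
  (∀ φ : MvPolynomial (Fin n) ℂ, (∀ j, φ ∣ p j) → IsUnit φ) → False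

/-- D1: degree one. -/
def S_D1 : Prop := ∀ (n m : ℕ) (p : Fin m → MvPolynomial (Fin n) ℂ),
  LinearIndependent ℂ p → Hom p 1 → m ≤ n

/-- D2: degree two. -/
def S_D2 : Prop := ∀ (n m : ℕ) (p : Fin m → MvPolynomial (Fin n) ℂ)
  (A : MvPolynomial (Fin n ⊕ Fin n) ℂ), Sys n m p A → Hom p 2 → m + 2 ≤ 2 * n → m ≤ n

/-- NINE -/
def S_NINE : Prop := 9 ∈ SosRanks 1 4

/-- GAP: the first gap. -/
def S_GAP : Prop := ∀ n m : ℕ, 4 ≤ n → m ∈ SosRanks 1 n → m + 2 ≤ 2 * n → m = 0 ∨ m = n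

end H95.FG
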