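import Pool.Agent.H95.FG.Defs
import Pool.Graph.R_pool_sql_team_seeded_f0cf7b00.H402R2.CE.Chain

open MvPolynomial

namespace H95.FG

theorem ranks_eq (n : ℕ) : SosRanks 1 n = H402.CE.S 1 n := rfl

theorem ge_n {n m : ℕ} (hn : 1 ≤ n) (h : m ∈ SosRanks 1 n) (h0 : m ≠ 0) : n ≤ m := by
  have h3 : (n + 1 - 1).choose 1 ≤ m := H402.CE.lower H402.CE.all3b hn h h0
  simpa using h3

theorem gap_of (hPOL : S_POL) (hMIN : S_MIN) (hMAIN : S_MAIN) (hD1 : S_D1) (hD2 : S_D2) :
    S_GAP := by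
  intro n m hn hm hlt
  by_cases h0 : m = 0
  · exact Or.inl h0
  · right
    apply le_antisymm ?_ (ge_n (by omega) hm h0)
    obtain ⟨p, A, d, hsys, hd, hhom, hgcd⟩ := hMIN n m (by omega) (by omega) hlt (hPOL n m hm)
    rcases Nat.lt_or_ge d 3 with h3 | h3
    · have : d = 1 ∨ d = 2 := by omega
      rcases this with rfl | rfl
      · exact hD1 n m p hsys.1 hhom
      · exact hD2 n m p A hsys hhom hlt
    · exfalso
      obtain ⟨e, rfl⟩ : ∃ e, d = e + 1 := ⟨d - 1, by omega⟩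
      exact hMAIN n m e p A hn (by omega) hlt hsys hhom (by omega) hgcd

/-- the final theorem from the parts -/
theorem final_of (hG : S_GAP) (hN : S_NINE) :
    (∀ n m : ℕ, 4 ≤ n → m < 2 * n - 1 → (m ∈ SosRanks 1 n ↔ m = 0 ∨ m = n)) ∧
    SosRanks 1 4 = {m | m = 0 ∨ m = 4 ∨ 7 ≤ m} := by
  have h1 : ∀ n m : ℕ, 4 ≤ n → m < 2 * n - 1 → (m ∈ SosRanks 1 n ↔ m = 0 ∨ m = n) := by
    intro n m hn hlt
    constructor
    · intro h
      exact hG n m hn h (by omega)
    · rintro (rfl | rfl)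
      · exact H402.CE.zero_mem 1 n
      · have := H402.CE.chain_mem m 1 0 (by omega) (by norm_num)
        rw [ranks_eq]
        simpa using this
  refine ⟨h1, ?_⟩
  ext m
  rcases Nat.lt_or_ge m 7 with h7 | h7
  · rw [h1 4 m (by norm_num) (by omega)]
    simp only [Set.mem_ofPred_eq]
    omega
  · simp only [Set.mem_ofPred_eq]
    refine ⟨fun _ => Or.inr (Or.inr h7), fun _ => ?_⟩
    rcases Nat.lt_or_ge 9 m with h9 | h9
    · exact H402.CE.conductor_one 4 m (by norm_num) (by omega)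
    · have h : m = 7 ∨ m = 8 ∨ m = 9 := by omega
      rcases h with rfl | rfl | rfl
      · exact H402.CE.chain_mem 4 2 1 (by norm_num) (by norm_num)
      · exact H402.CE.chain_mem 4 2 0 (by norm_num) (by norm_num)
      · exact hN

end H95.FG
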